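import Pool.Agent.H22.LP.Dat
import Pool.Agent.H22.LP.Cnt3
import Pool.Agent.H22.LP.Inf

/-!
# MP_130685_nt: uniform Zilber-Pink for ALL subvarieties of `Y(1)^n` and their maximal atypical
subvarieties which meet the residue polydisk of almost any point of `P^1(F_p)^n`

`Y(1)^n` is identified with `ℂ^n` by the elliptic modular function `jj = j = E₄³ / Δ`. The
definitions `Subvariety`, `Special`, `IsComp`, `vdim`, `Atypical` are those of the starting file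
`N101/ZP/YDef`.

A place `𝔓` of `ℂ` above a prime number `p` is a valuation ring of `ℂ` in which `p` is not a unit,
with absolute value `| |`. There are infinitely many places above every `p`, and the theorem
is uniform in all of them. We say that `z` is off the circles (`OffCircles 𝔓 p m z`) if `|z|` is none
of the numbers `|p| ^ (1 / ((p - 1) p^k))`, `k ≥ m`. It is satisfied if `|z| ≤ |p| ^ (1 / e)` for an
`e` with `e < (p - 1) p^m`.

For a subset `R` of `Y(1)^n` let `UniformZP R` be the following statement: there are finitely many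
special subvarieties `Z_1, ..., Z_N` of `Y(1)^n` such that for EVERY subvariety `V` of `Y(1)^n` (over
the complex numbers, of any dimension and degree, without any condition) every maximal atypical
subvariety of `V` which meets `R` is an irreducible component of the intersection of `V` with some
`Z_j`; and `V` has only finitely many such maximal atypical subvarieties.

A point `x` of `ℂ^n` is in the residue polydisk of a point `β` of `P^1(F_p)^n` at the place `𝔓`, if for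
every `i` either `β_i = ∞` and `|x_i| > 1`, or `β_i` is the class of an integer `b_i` with
`|x_i - b_i| < 1`. Two coordinates with `|x_i|`, `|x_j| > 1` are called commensurable, if
`|x_i|^a = |x_j|^b` for some positive integers `a`, `b`.

**Theorem.** Let `ε > 0`. There is a constant `C` such that for every prime number `p` and every
place `𝔓` above `p` there are subsets `B(𝔓)`, `B'(𝔓)` of `P^1(F_p)^n`, such that all but at most
`C p ^ (n - 1/2 + ε)` of its `(p + 1) ^ n` points are in `B(𝔓)`, all but at most `C p ^ (n - 1 + ε)` are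
in `B'(𝔓)`, and such that for every `p` and every `m`:
* `UniformZP` is true for the set of all `x` for which there is a place `𝔓` above `p` such that
  either `x` is in the residue polydisk of a point of `B'(𝔓)`, all `x_i - b_i` (with `β_i ≠ ∞`) are
  off the circles with `k ≥ m`, and no two of the coordinates with `|x_i| > 1` are commensurable,
  or `x` is in the residue polydisk of a point of `B(𝔓)`, and the conditions on the `x_i - b_i` and
  on the pairs of coordinates with `|x_i| > 1` are satisfied with at most one exception (one `i`, or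
  one pair `i`, `j`);
* only finitely many special subvarieties of `Y(1)^n` contain a point `x` which is, for some place
  `𝔓` above `p`, in the residue polydisk of a point of `B(𝔓)`, with `x_i - b_i` off the circles for
  all `i` (with `β_i ≠ ∞`) and without commensurable coordinates with `|x_i| > 1`; hence every `V`
  has only finitely many atypical subvarieties, maximal or not, which contain such a point.

Proof. By the congruence of Kronecker every integer is congruent modulo `𝔓` to a singular modulus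
`s_i` which is fixed by an integral matrix of determinant `p`. Suppose that `s_i` is ordinary and
not congruent to `0` or `1728`. Then the canonical isogeny shows that `|b_i - s_i| ≤ |p|`, that the
distance of two CM points in this residue disk is one of the numbers `|p| ^ (1 / ((p - 1) p^k))`, and
that their images under the `(k + 1)`-st iterate of the canonical isogeny are then equal, so that
the CM points in the disk which are off the circles are in a finite set which does not depend on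
`𝔓`. A point in the `i`-th and a point in the `j`-th residue disk are never isogenous if `s_i` and
`s_j` are not isogenous. Numbers with `|z| > 1` are not singular moduli, and not isogenous to
numbers with `|z| ≤ 1`, and isogenous ones are commensurable. If a special subvariety `Z` meets the
region, it follows that `Z` is contained, and has codimension at most one, in a coordinate subspace
whose constants are in this finite set (and is equal to it, if there is no exception). If `A` is a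
component of `Z ∩ V` and is atypical and maximal, then a component of the intersection of `V` with
the larger special subvariety which contains `A` is equal to `A`, since its dimension would
otherwise be larger than the dimension of `A`, so that it would be atypical. The number of the
residue classes with two exceptions is bounded by the number `O(p ^ (1/2 + ε))` of singular moduli
with a given trace and by the number (at most `81`) of traces which belong to a given quadratic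
field.
-/

set_option autoImplicit false

namespace Pool.Agent.Results.MP_130685_nt.ResiduePolydisks

open Pool.Agent.N101.Y1 H294ZP UpperHalfPlane
open Pool.Agent.N135.ZO (Isog)

/-- `A` is an atypical subvariety of `V`: an irreducible component of the intersection of `V` with
some special subvariety `Z`, with `dim A > dim V + dim Z - n`. -/
def AtypicalSub {n : ℕ} (A V : Set (Fin n → ℂ)) : Prop := ∃ Z, Special Z ∧ Atypical A Z V

/-- `A` is a maximal atypical subvariety of `V`: it is not properly contained in another one. -/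
def MaxAtypicalSub {n : ℕ} (A V : Set (Fin n → ℂ)) : Prop :=
  AtypicalSub A V ∧ ∀ A', AtypicalSub A' V → A ⊆ A' → A' = A

/-- There are finitely many special subvarieties such that, for every subvariety `V` of `Y(1)^n`,
every maximal atypical subvariety of `V` which meets `R` is an irreducible component of the
intersection of `V` with one of them, and there are only finitely many such subvarieties of `V`. -/
def UniformZP {n : ℕ} (R : Set (Fin n → ℂ)) : Prop :=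
  ∃ F : Set (Set (Fin n → ℂ)), F.Finite ∧ (∀ Z ∈ F, Special Z) ∧
    ∀ V : Set (Fin n → ℂ), Subvariety V →
      (∀ A, MaxAtypicalSub A V → (A ∩ R).Nonempty → ∃ Z ∈ F, IsComp A (Z ∩ V)) ∧
      {A | MaxAtypicalSub A V ∧ (A ∩ R).Nonempty}.Finite

/-- `|z| ^ ((p - 1) p^k) ≠ |p|` for all `k ≥ m`. -/
def OffCircles (𝔓 : ValuationSubring ℂ) (p m : ℕ) (z : ℂ) : Prop :=
  ∀ k : ℕ, m ≤ k → 𝔓.valuation z ^ ((p - 1) * p ^ k) ≠ 𝔓.valuation (p : ℂ)

/-- `|z| ^ a = |w| ^ b` for some positive integers `a`, `b`. -/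
def Commensurable (𝔓 : ValuationSubring ℂ) (z w : ℂ) : Prop :=
  ∃ a b : ℕ, 0 < a ∧ 0 < b ∧ 𝔓.valuation z ^ a = 𝔓.valuation w ^ b

/-- Residue classes in `P^1(F_p)` are elements of `Option (ZMod p)`, with `none` for `∞`. The
points `x` for which there are a place `𝔓` above `p` and a `β` in `B 𝔓` such that, for all `i`, either
`β i = ∞` and `|x_i| > 1`, or `β i` is the class of an integer `b` with `|x_i - b| < 1`, and `x_i - b` is
off the circles with `k ≥ m`, except possibly for `(i, i)` in `E`, and `x_i` and `x_j` are not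
commensurable if `β i = β j = ∞` and `i ≠ j`, except possibly for `(i, j)` in `E`. -/
def region {n : ℕ} (p m : ℕ) (E : Set (Fin n × Fin n))
    (B : ValuationSubring ℂ → Set (Fin n → Option (ZMod p))) : Set (Fin n → ℂ) :=
  {x | ∃ 𝔓 : ValuationSubring ℂ, 𝔓.valuation (p : ℂ) < 1 ∧ ∃ β ∈ B 𝔓,
    (∀ i, (β i = none ∧ 1 < 𝔓.valuation (x i)) ∨ ∃ b : ℤ, β i = some (b : ZMod p) ∧
      𝔓.valuation (x i - b) < 1 ∧ ((i, i) ∉ E → OffCircles 𝔓 p m (x i - b))) ∧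
    ∀ i j, i ≠ j → β i = none → β j = none → Commensurable 𝔓 (x i) (x j) → (i, j) ∈ E}

theorem bound1 {n p : ℕ} (hp : p.Prime) {C₀ ε : ℝ} (hC₀ : 0 < C₀) {A : ℕ}
    (h : A * (p + 1) ≤ ((n + 1) * n) * (2 + 81 * ⌊C₀ * (p : ℝ) ^ (1 / 2 + ε)⌋₊) * (p + 1) ^ n)
    (hε : 0 < ε) :
    (A : ℝ) ≤ (((n + 1) * n) * (81 * (C₀ + 1)) * 2 ^ n) * (p : ℝ) ^ ((n : ℝ) - 1 / 2 + ε) := by
  set S : ℕ := ⌊C₀ * (p : ℝ) ^ (1 / 2 + ε)⌋₊ with hS
  have hp1 : (1 : ℝ) ≤ p := by exact_mod_cast hp.one_lt.le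
  have hpr : (0 : ℝ) < p := by linarith
  have h1 : (A : ℝ) * ((p : ℝ) + 1) ≤ ((n + 1) * n) * (2 + 81 * S) * ((p : ℝ) + 1) ^ n := by
    exact_mod_cast h
  have h2 : (S : ℝ) ≤ C₀ * (p : ℝ) ^ (1 / 2 + ε) := Nat.floor_le (by positivity)
  have h3 : (1 : ℝ) ≤ (p : ℝ) ^ (1 / 2 + ε) := Real.one_le_rpow hp1 (by linarith)
  have h4 : (p : ℝ) ^ ((n : ℝ) - 1 / 2 + ε) * p = (p : ℝ) ^ (1 / 2 + ε) * (p : ℝ) ^ n := by
    nth_rw 2 [← Real.rpow_one (p : ℝ)]
    rw [← Real.rpow_natCast, ← Real.rpow_add hpr, ← Real.rpow_add hpr]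
    congr 1
    ring
  have hn : (0 : ℝ) ≤ n := Nat.cast_nonneg n
  have hA : (0 : ℝ) ≤ A := Nat.cast_nonneg A
  have h5 : (2 + 81 * S : ℝ) ≤ (81 * (C₀ + 1)) * (p : ℝ) ^ (1 / 2 + ε) := by nlinarith
  have h6 : ((p : ℝ) + 1) ^ n ≤ (2 * (p : ℝ)) ^ n := pow_le_pow_left₀ (by linarith) (by linarith) n
  have h7 : (A : ℝ) * p ≤ ((((n + 1) * n) * (81 * (C₀ + 1)) * 2 ^ n) *
      (p : ℝ) ^ ((n : ℝ) - 1 / 2 + ε)) * p := by
    calc (A : ℝ) * p ≤ (A : ℝ) * ((p : ℝ) + 1) := mul_le_mul_of_nonneg_left (by linarith) hA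
      _ ≤ _ := h1
      _ ≤ ((n + 1) * n) * ((81 * (C₀ + 1)) * (p : ℝ) ^ (1 / 2 + ε)) * (2 * (p : ℝ)) ^ n := by
        gcongr
      _ = _ := by rw [mul_assoc _ _ (p : ℝ), h4, mul_pow]; ring
  exact le_of_mul_le_mul_right h7 hpr

theorem bound2 {n p : ℕ} (hp : p.Prime) {C₀ ε : ℝ} (hC₀ : 0 < C₀) {A : ℕ}
    (h : A * (p + 1) ^ 2 ≤ ((n + 1) * (n + 1) * n * n) *
      (2 + 81 * ⌊C₀ * (p : ℝ) ^ (1 / 2 + ε)⌋₊) ^ 2 * (p + 1) ^ n) (hε : 0 < ε) :
    (A : ℝ) ≤ (((n + 1) * (n + 1) * n * n) * (81 * (C₀ + 1)) ^ 2 * 2 ^ n) *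
      (p : ℝ) ^ ((n : ℝ) - 1 + 2 * ε) := by
  set S : ℕ := ⌊C₀ * (p : ℝ) ^ (1 / 2 + ε)⌋₊ with hS
  have hp1 : (1 : ℝ) ≤ p := by exact_mod_cast hp.one_lt.le
  have hpr : (0 : ℝ) < p := by linarith
  have h1 : (A : ℝ) * ((p : ℝ) + 1) ^ 2 ≤ ((n + 1) * (n + 1) * n * n) * (2 + 81 * S) ^ 2 *
    ((p : ℝ) + 1) ^ n := by exact_mod_cast h
  have h2 : (S : ℝ) ≤ C₀ * (p : ℝ) ^ (1 / 2 + ε) := Nat.floor_le (by positivity)
  have h3 : (1 : ℝ) ≤ (p : ℝ) ^ (1 / 2 + ε) := Real.one_le_rpow hp1 (by linarith)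
  have h4 : (p : ℝ) ^ ((n : ℝ) - 1 + 2 * ε) * (p : ℝ) ^ 2 =
      ((p : ℝ) ^ (1 / 2 + ε)) ^ 2 * (p : ℝ) ^ n := by
    rw [← Real.rpow_natCast, ← Real.rpow_natCast, ← Real.rpow_natCast, ← Real.rpow_mul hpr.le,
      ← Real.rpow_add hpr, ← Real.rpow_add hpr]
    congr 1
    push_cast
    ring
  have hn : (0 : ℝ) ≤ n := Nat.cast_nonneg n
  have hA : (0 : ℝ) ≤ A := Nat.cast_nonneg A
  have h5 : (2 + 81 * S : ℝ) ≤ (81 * (C₀ + 1)) * (p : ℝ) ^ (1 / 2 + ε) := by nlinarith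
  have h6 : (2 + 81 * S : ℝ) ^ 2 ≤ ((81 * (C₀ + 1)) * (p : ℝ) ^ (1 / 2 + ε)) ^ 2 :=
    pow_le_pow_left₀ (by positivity) h5 2
  have h8 : ((p : ℝ) + 1) ^ n ≤ (2 * (p : ℝ)) ^ n := pow_le_pow_left₀ (by linarith) (by linarith) n
  have h9 : (p : ℝ) ^ 2 ≤ ((p : ℝ) + 1) ^ 2 := pow_le_pow_left₀ hpr.le (by linarith) 2
  have h7 : (A : ℝ) * (p : ℝ) ^ 2 ≤ ((((n + 1) * (n + 1) * n * n) * (81 * (C₀ + 1)) ^ 2 * 2 ^ n) *
      (p : ℝ) ^ ((n : ℝ) - 1 + 2 * ε)) * (p : ℝ) ^ 2 := by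
    calc (A : ℝ) * (p : ℝ) ^ 2 ≤ (A : ℝ) * ((p : ℝ) + 1) ^ 2 := mul_le_mul_of_nonneg_left h9 hA
      _ ≤ _ := h1
      _ ≤ ((n + 1) * (n + 1) * n * n) * (((81 * (C₀ + 1)) * (p : ℝ) ^ (1 / 2 + ε)) ^ 2) *
          (2 * (p : ℝ)) ^ n := by gcongr
      _ = _ := by rw [mul_assoc _ _ ((p : ℝ) ^ 2), h4, mul_pow 2]; ring
  exact le_of_mul_le_mul_right h7 (by positivity)

theorem uniform_of_reg {n : ℕ} {R : Set (Fin n → ℂ)} {T : Set ℂ} (hT : T.Finite)
    (h : R ⊆ Pool.Agent.H22.LP.Reg n T) : UniformZP R := by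
  have h1 : ∀ V : Set (Fin n → ℂ), Subvariety V → ∀ A, MaxAtypicalSub A V → (A ∩ R).Nonempty →
      ∃ Z ∈ Pool.Agent.H22.LP.Fam n T, IsComp A (Z ∩ V) := by
    rintro V hV A ⟨hA, hmax⟩ ⟨x, hxA, hx⟩
    exact Pool.Agent.H22.LP.reg_comp hV hA hmax ⟨x, hxA, h hx⟩
  refine ⟨Pool.Agent.H22.LP.Fam n T, Pool.Agent.H22.LP.fam_finite n hT, fun Z hZ => hZ.1,
    fun V hV => ⟨h1 V hV, ?_⟩⟩
  refine (Pool.Agent.H22.LP.comp_finite (Pool.Agent.H22.LP.fam_finite n hT) (fun Z hZ => hZ.1)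
    hV).subset ?_
  rintro A ⟨hA, hR⟩
  exact h1 V hV A hA hR

theorem uniform_empty {n : ℕ} : UniformZP (∅ : Set (Fin n → ℂ)) := by
  refine ⟨∅, Set.finite_empty, fun Z hZ => absurd hZ (Set.notMem_empty Z), fun V _ => ⟨?_, ?_⟩⟩
  · rintro A _ ⟨x, -, hx⟩
    exact absurd hx (Set.notMem_empty x)
  · simp

theorem uniform_zero (R : Set (Fin 0 → ℂ)) : UniformZP R := by
  refine ⟨{Z | Special Z}, Set.toFinite _, fun Z hZ => hZ, fun V _ => ⟨?_, Set.toFinite _⟩⟩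
  rintro A ⟨⟨Z, hZ, hA⟩, -⟩ _
  exact ⟨Z, hZ, hA.1⟩

theorem result (n : ℕ) (ε : ℝ) (hε : 0 < ε) :
    ∃ C : ℝ, ∀ p : ℕ, p.Prime →
      ∃ B B' : ValuationSubring ℂ → Set (Fin n → Option (ZMod p)),
        (∀ 𝔓 : ValuationSubring ℂ, 𝔓.valuation (p : ℂ) < 1 →
          ((B 𝔓)ᶜ.ncard : ℝ) ≤ C * (p : ℝ) ^ ((n : ℝ) - 1 / 2 + ε) ∧
          ((B' 𝔓)ᶜ.ncard : ℝ) ≤ C * (p : ℝ) ^ ((n : ℝ) - 1 + ε)) ∧
        ∀ m : ℕ,
          UniformZP (region p m ∅ B' ∪ ⋃ (i : Fin n) (j : Fin n), region p m {(i, j), (j, i)} B) ∧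
          {Z | Special Z ∧ (Z ∩ region p m ∅ B).Nonempty}.Finite ∧
          ∀ V : Set (Fin n → ℂ), Subvariety V →
            {A | AtypicalSub A V ∧ (A ∩ region p m ∅ B).Nonempty}.Finite := by
  classical
  obtain ⟨C₀, hC₀, hSS⟩ := Pool.Agent.H22.IA.card_SS (ε / 2) (half_pos hε)
  refine ⟨((n + 1) * n) * (81 * (C₀ + 1)) * 2 ^ n +
    ((n + 1) * (n + 1) * n * n) * (81 * (C₀ + 1)) ^ 2 * 2 ^ n + 3 * 4 ^ n, fun p hp => ?_⟩
  have _ : Fact p.Prime := ⟨hp⟩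
  have _ : NeZero p := ⟨hp.ne_zero⟩
  have hp1 : (1 : ℝ) ≤ p := by exact_mod_cast hp.one_lt.le
  have hpr : (0 : ℝ) < p := by linarith
  have hn : (0 : ℝ) ≤ n := Nat.cast_nonneg n
  have hC1 : (0 : ℝ) ≤ ((n + 1) * n) * (81 * (C₀ + 1)) * 2 ^ n := by positivity
  have hC2 : (0 : ℝ) ≤ ((n + 1) * (n + 1) * n * n) * (81 * (C₀ + 1)) ^ 2 * 2 ^ n := by positivity
  have hC3 : (0 : ℝ) ≤ 3 * 4 ^ n := by positivity
  have hpow : (0 : ℝ) < (p : ℝ) ^ ((n : ℝ) - 1 / 2 + ε) := Real.rpow_pos_of_pos hpr _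
  have hpow' : (0 : ℝ) < (p : ℝ) ^ ((n : ℝ) - 1 + ε) := Real.rpow_pos_of_pos hpr _
  by_cases h5 : 5 ≤ p
  swap
  · have h3' : p ≤ 3 := by
      by_contra hcon
      have h6 : p = 4 := by omega
      rw [h6] at hp
      exact absurd hp (by norm_num)
    have h3 : (p : ℝ) ≤ 3 := by exact_mod_cast h3'
    have h1 : ((∅ : Set (Fin n → Option (ZMod p)))ᶜ.ncard : ℝ) ≤ 4 ^ n := by
      rw [Set.compl_empty, Set.ncard_univ, Nat.card_eq_fintype_card, Fintype.card_pi,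
        Finset.prod_const, Fintype.card_option, ZMod.card, Finset.card_univ, Fintype.card_fin]
      have : (p + 1) ^ n ≤ 4 ^ n := Nat.pow_le_pow_left (by omega) n
      exact_mod_cast this
    have h2 : (4 : ℝ) ^ n ≤ (3 * 4 ^ n) * (p : ℝ) ^ ((n : ℝ) - 1 + ε) := by
      have h4 : (p : ℝ) ^ (-1 : ℝ) ≤ (p : ℝ) ^ ((n : ℝ) - 1 + ε) :=
        Real.rpow_le_rpow_of_exponent_le hp1 (by linarith)
      have h6 : (1 : ℝ) / 3 ≤ (p : ℝ) ^ (-1 : ℝ) := by
        rw [Real.rpow_neg_one, ← one_div]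
        exact one_div_le_one_div_of_le hpr h3
      calc (4 : ℝ) ^ n = (3 * 4 ^ n) * (1 / 3) := by ring
        _ ≤ _ := mul_le_mul_of_nonneg_left (h6.trans h4) hC3
    have h4 : (p : ℝ) ^ ((n : ℝ) - 1 + ε) ≤ (p : ℝ) ^ ((n : ℝ) - 1 / 2 + ε) :=
      Real.rpow_le_rpow_of_exponent_le hp1 (by linarith)
    have h0 : ∀ m E, region p m E (fun _ => (∅ : Set (Fin n → Option (ZMod p)))) = ∅ := by
      intro m E
      ext x
      simp [region]
    refine ⟨fun _ => ∅, fun _ => ∅, fun 𝔓 _ => ⟨?_, ?_⟩, fun m => ⟨?_, ?_, fun V hV => ?_⟩⟩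
    · refine h1.trans (h2.trans ((mul_le_mul_of_nonneg_left h4 hC3).trans ?_))
      exact mul_le_mul_of_nonneg_right (by linarith) hpow.le
    · exact h1.trans (h2.trans (mul_le_mul_of_nonneg_right (by linarith) hpow'.le))
    · have h7 : (region p m ∅ (fun _ => (∅ : Set (Fin n → Option (ZMod p)))) ∪
          ⋃ (i : Fin n) (j : Fin n), region p m {(i, j), (j, i)}
            (fun _ => (∅ : Set (Fin n → Option (ZMod p))))) = ∅ := by
        simp only [h0, Set.iUnion_empty, Set.union_empty]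
      rw [h7]
      exact uniform_empty
    · rw [h0]
      simp
    · rw [h0]
      simp
  choose t ht1 ht2 ht3 ht4 using fun 𝔓 : {𝔓 : ValuationSubring ℂ // 𝔓.valuation (p : ℂ) < 1} =>
    Pool.Agent.H22.LP.exists_dat hp h5 𝔓.2
  have hS : ∀ 𝔓 s, {β | t 𝔓 β = s}.ncard ≤ ⌊C₀ * (p : ℝ) ^ (1 / 2 + ε / 2)⌋₊ := fun 𝔓 s =>
    (ht2 𝔓 s).trans (Nat.le_floor (hSS p hp s).2)
  refine ⟨fun 𝔓 => {β | ∃ h, ¬ Pool.Agent.H22.LP.Bad1 (t ⟨𝔓, h⟩) β},
    fun 𝔓 => {β | ∃ h, ¬ Pool.Agent.H22.LP.Bad2 (t ⟨𝔓, h⟩) β}, fun 𝔓 h𝔓 => ⟨?_, ?_⟩, ?_⟩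
  · have h1 := Pool.Agent.H22.LP.count_bad1 hp (t ⟨𝔓, h𝔓⟩) (ht1 _) (hS _) n
    have h2 := bound1 hp hC₀ h1 (half_pos hε)
    have h3 : ({β : Fin n → Option (ZMod p) | ∃ h, ¬ Pool.Agent.H22.LP.Bad1 (t ⟨𝔓, h⟩) β}ᶜ) =
        {β | Pool.Agent.H22.LP.Bad1 (t ⟨𝔓, h𝔓⟩) β} := by
      ext β
      simp [h𝔓]
    have h4 : (p : ℝ) ^ ((n : ℝ) - 1 / 2 + ε / 2) ≤ (p : ℝ) ^ ((n : ℝ) - 1 / 2 + ε) :=
      Real.rpow_le_rpow_of_exponent_le hp1 (by linarith)
    rw [h3]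
    refine h2.trans ((mul_le_mul_of_nonneg_left h4 hC1).trans
      (mul_le_mul_of_nonneg_right ?_ hpow.le))
    linarith
  · have h1 := Pool.Agent.H22.LP.count_bad2 hp (t ⟨𝔓, h𝔓⟩) (ht1 _) (hS _) n
    have h2 := bound2 hp hC₀ h1 (half_pos hε)
    have h3 : ({β : Fin n → Option (ZMod p) | ∃ h, ¬ Pool.Agent.H22.LP.Bad2 (t ⟨𝔓, h⟩) β}ᶜ) =
        {β | Pool.Agent.H22.LP.Bad2 (t ⟨𝔓, h𝔓⟩) β} := by
      ext β
      simp [h𝔓]
    rw [h3]
    rw [show 2 * (ε / 2) = ε by ring] at h2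
    refine h2.trans (mul_le_mul_of_nonneg_right ?_ hpow'.le)
    linarith
  intro m
  have hint : ∀ (𝔓 : ValuationSubring ℂ) (b : ℤ), 𝔓.valuation (b : ℂ) ≤ 1 := fun 𝔓 b =>
    (𝔓.valuation_le_one_iff _).2 (intCast_mem 𝔓 b)
  -- the sets
  let U : ValuationSubring ℂ → Set (Fin n × Fin n) → (Fin n → Option (ZMod p)) → (Fin n → ℂ) →
      Fin n → Set ℂ := fun 𝔓 E β x i =>
    {z | (β i = none ∧ 1 < 𝔓.valuation z ∧ 𝔓.valuation z = 𝔓.valuation (x i)) ∨
      ∃ b : ℤ, β i = some (b : ZMod p) ∧ 𝔓.valuation (z - b) < 1 ∧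
        ((i, i) ∉ E → OffCircles 𝔓 p m (z - b))}
  have hmemU : ∀ (𝔓 : ValuationSubring ℂ) (E : Set (Fin n × Fin n))
      (β : Fin n → Option (ZMod p)) (x : Fin n → ℂ) (i : Fin n),
      ((β i = none ∧ 1 < 𝔓.valuation (x i)) ∨ ∃ b : ℤ, β i = some (b : ZMod p) ∧
        𝔓.valuation (x i - b) < 1 ∧ ((i, i) ∉ E → OffCircles 𝔓 p m (x i - b))) →
      x i ∈ U 𝔓 E β x i := by
    rintro 𝔓 E β x i (⟨h1, h2⟩ | h)
    · exact Or.inl ⟨h1, h2, rfl⟩
    · exact Or.inr h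
  have hcmU : ∀ (𝔓 : ValuationSubring ℂ) (h𝔓 : 𝔓.valuation (p : ℂ) < 1)
      (E : Set (Fin n × Fin n)) (β : Fin n → Option (ZMod p)) (x : Fin n → ℂ) (i : Fin n),
      ¬ Pool.Agent.H22.LP.Ex (t ⟨𝔓, h𝔓⟩) (β i) → (i, i) ∉ E →
      Pool.Agent.H22.LP.CMof (U 𝔓 E β x i) ⊆ Pool.Agent.H22.LP.TT p m := by
    rintro 𝔓 h𝔓 E β x i hex hiE z ⟨hz1, ⟨-, hz2, -⟩ | ⟨b, hb, hz2, hz3⟩⟩
    · exact absurd hz2 (not_lt.2 (Pool.Agent.H22.LP.cm_le hz1))
    · have h1 : ¬ ((b : ZMod p) = 0 ∨ (b : ZMod p) = 1728 ∨ t ⟨𝔓, h𝔓⟩ (b : ZMod p) = 0) :=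
        fun h => hex ⟨_, hb, h⟩
      rw [not_or, not_or] at h1
      exact ht3 ⟨𝔓, h𝔓⟩ m b z h1.1 h1.2.1 h1.2.2 hz2 (hz3 hiE) hz1
  have hisoU : ∀ (𝔓 : ValuationSubring ℂ) (h𝔓 : 𝔓.valuation (p : ℂ) < 1)
      (E : Set (Fin n × Fin n)) (β : Fin n → Option (ZMod p)) (x : Fin n → ℂ) (i j : Fin n),
      ¬ Pool.Agent.H22.LP.Ex (t ⟨𝔓, h𝔓⟩) (β j) →
      ¬ Pool.Agent.H22.LP.Lk (t ⟨𝔓, h𝔓⟩) (β i) (β j) →
      (β i = none → β j = none → ¬ Commensurable 𝔓 (x i) (x j)) →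
      ∀ z ∈ U 𝔓 E β x i, ∀ w ∈ U 𝔓 E β x j, ¬ Isog z w := by
    intro 𝔓 h𝔓 E β x i j hex hlk hco z hz w hw hI
    rcases hz with ⟨hi, hz, hz'⟩ | ⟨b, hi, hz, -⟩
    · rcases hw with ⟨hj, hw, hw'⟩ | ⟨b', hj, hw, -⟩
      · obtain ⟨a, c, ha, hc, h2⟩ := Pool.Agent.H22.LP.isog_comm hI hz
        rw [hz', hw'] at h2
        exact hco hi hj ⟨a, c, ha, hc, h2⟩
      · exact absurd hz (not_lt.2 (Pool.Agent.H22.LP.isog_le hI.symm
          (Pool.Agent.H22.LP.near_le (hint 𝔓 b') hw)))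
    · rcases hw with ⟨hj, hw, -⟩ | ⟨b', hj, hw, -⟩
      · exact absurd hw (not_lt.2 (Pool.Agent.H22.LP.isog_le hI
          (Pool.Agent.H22.LP.near_le (hint 𝔓 b) hz)))
      · have h1 : ¬ ((b' : ZMod p) = 0 ∨ (b' : ZMod p) = 1728 ∨ t ⟨𝔓, h𝔓⟩ (b' : ZMod p) = 0) :=
          fun h => hex ⟨_, hj, h⟩
        rw [not_or, not_or] at h1
        rw [hi, hj] at hlk
        exact hlk (ht4 ⟨𝔓, h𝔓⟩ b b' z w h1.1 h1.2.1 h1.2.2 hz hw hI)
  -- the points are in products of sets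
  have key : ∀ (𝔓 : ValuationSubring ℂ) (h𝔓 : 𝔓.valuation (p : ℂ) < 1)
      (E : Set (Fin n × Fin n)) (β : Fin n → Option (ZMod p)) (i₀ j₀ : Fin n) (x : Fin n → ℂ),
      (∀ i, Pool.Agent.H22.LP.Ex (t ⟨𝔓, h𝔓⟩) (β i) → i = i₀ ∧ i = j₀) →
      (∀ i j, i ≠ j → Pool.Agent.H22.LP.Lk (t ⟨𝔓, h𝔓⟩) (β i) (β j) →
        (i = i₀ ∧ j = j₀) ∨ (i = j₀ ∧ j = i₀)) →
      (∀ i j, i ≠ j → β i = none → β j = none → Commensurable 𝔓 (x i) (x j) →
        (i = i₀ ∧ j = j₀) ∨ (i = j₀ ∧ j = i₀)) →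
      (∀ i, (i, i) ∈ E → i = i₀ ∧ i = j₀) → (∀ i, x i ∈ U 𝔓 E β x i) →
      x ∈ Pool.Agent.H22.LP.Reg n (Pool.Agent.H22.LP.TT p m) := by
    intro 𝔓 h𝔓 E β i₀ j₀ x he1 he2 he3 hE hx
    refine ⟨U 𝔓 E β x, i₀, j₀, ?_, ?_, hx⟩
    · intro i hi
      exact hcmU 𝔓 h𝔓 E β x i (fun h => hi (he1 i h)) (fun h => hi (hE i h))
    · intro i j hij hn1 hn2 z hz w hw hI
      have hpair : ¬ ((i = i₀ ∧ j = j₀) ∨ (i = j₀ ∧ j = i₀)) := by
        rw [not_or]
        exact ⟨hn1, hn2⟩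
      have hpair' : ¬ ((j = i₀ ∧ i = j₀) ∨ (j = j₀ ∧ i = i₀)) := by
        rintro (h | h)
        · exact hn2 ⟨h.2, h.1⟩
        · exact hn1 ⟨h.2, h.1⟩
      by_cases hj : Pool.Agent.H22.LP.Ex (t ⟨𝔓, h𝔓⟩) (β j)
      · have hi : ¬ Pool.Agent.H22.LP.Ex (t ⟨𝔓, h𝔓⟩) (β i) := fun h =>
          hij ((he1 i h).1.trans (he1 j hj).1.symm)
        exact hisoU 𝔓 h𝔓 E β x j i hi (fun h => hpair' (he2 j i hij.symm h))
          (fun h1 h2 h3 => hpair' (he3 j i hij.symm h1 h2 h3)) w hw z hz hI.symm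
      · exact hisoU 𝔓 h𝔓 E β x i j hj (fun h => hpair (he2 i j hij h))
          (fun h1 h2 h3 => hpair (he3 i j hij h1 h2 h3)) z hz w hw hI
  have h1 : {Z : Set (Fin n → ℂ) | Special Z ∧ (Z ∩ region p m ∅
      (fun 𝔓 => {β | ∃ h, ¬ Pool.Agent.H22.LP.Bad1 (t ⟨𝔓, h⟩) β})).Nonempty}.Finite := by
    refine (Pool.Agent.H22.LP.fam_finite n (Pool.Agent.H22.LP.tt_finite hp m)).subset ?_
    rintro Z ⟨hZ, x, hxZ, 𝔓, h𝔓, β, ⟨_, hβ⟩, hx, hx'⟩
    refine Pool.Agent.H22.LP.special_mem (U := U 𝔓 ∅ β x) ?_ ?_ hZ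
      ⟨x, hxZ, fun i _ => hmemU 𝔓 ∅ β x i (hx i)⟩
    · intro i
      exact hcmU 𝔓 h𝔓 ∅ β x i (fun h => hβ ⟨none, i, by simp, h⟩) (Set.notMem_empty _)
    · intro i j hij
      exact hisoU 𝔓 h𝔓 ∅ β x i j (fun h => hβ ⟨none, j, by simp, h⟩)
        (fun h => hβ ⟨some i, j, fun h' => hij (Option.some.inj h'), h⟩)
        (fun h1 h2 h3 => absurd (hx' i j hij h1 h2 h3) (Set.notMem_empty _))
  refine ⟨?_, h1, fun V hV => ?_⟩
  · rcases Nat.eq_zero_or_pos n with rfl | hn0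
    · exact uniform_zero _
    refine uniform_of_reg (Pool.Agent.H22.LP.tt_finite hp m) ?_
    rintro x (⟨𝔓, h𝔓, β, ⟨_, hβ⟩, hx, hx'⟩ | hx)
    · obtain ⟨i₀, j₀, he1, he2⟩ := Pool.Agent.H22.LP.one_event hn0 hβ
      exact key 𝔓 h𝔓 ∅ β i₀ j₀ x he1 he2
        (fun i j hij h1 h2 h3 => absurd (hx' i j hij h1 h2 h3) (Set.notMem_empty _))
        (fun i hi => absurd hi (Set.notMem_empty _)) fun i => hmemU 𝔓 ∅ β x i (hx i)
    · obtain ⟨i₀, hx⟩ := Set.mem_iUnion.1 hx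
      obtain ⟨j₀, hx⟩ := Set.mem_iUnion.1 hx
      obtain ⟨𝔓, h𝔓, β, ⟨_, hβ⟩, hx, hx'⟩ := hx
      refine key 𝔓 h𝔓 {(i₀, j₀), (j₀, i₀)} β i₀ j₀ x (fun i h => absurd ⟨none, i, by simp, h⟩ hβ)
        (fun i j hij h => absurd ⟨some i, j, fun h' => hij (Option.some.inj h'), h⟩ hβ)
        (fun i j hij h1 h2 h3 => ?_) (fun i hi => ?_) fun i => hmemU 𝔓 _ β x i (hx i)
      · rcases hx' i j hij h1 h2 h3 with h | h
        · exact Or.inl (Prod.mk.inj h)
        · exact Or.inr (Prod.mk.inj h)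
      · rcases hi with h | h
        · exact Prod.mk.inj h
        · exact ⟨(Prod.mk.inj h).2, (Prod.mk.inj h).1⟩
  · refine (Pool.Agent.H22.LP.comp_finite h1 (fun Z hZ => hZ.1) hV).subset ?_
    rintro A ⟨⟨Z, hZ, hA⟩, x, hxA, hxR⟩
    exact ⟨Z, ⟨hZ, x, (hA.1.2.1 hxA).1, hxR⟩, hA.1⟩

end Pool.Agent.Results.MP_130685_nt.ResiduePolydisks
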